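import Pool.Agent.H79.CU.Main

/-! # Countable unions: Cantor-Bendixson rank and semiartinian rings -/

set_option autoImplicit false

universe u v

namespace Pool.Agent.Results.MP_7a6819_al.CountableUnions

open Pool.Agent.H36.KG Pool.Agent.H79.CU

/-- Let `R` be the union of an increasing sequence of von Neumann regular subrings `A n` such that
every right primitive factor ring of every `A n` is semiartinian (for instance: every `A n` is
semiartinian, or every primitive factor ring of every `A n` is artinian). If some
Cantor-Bendixson derivative of the Ziegler spectrum of `R` is empty, then `R` is semiartinian. -/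
theorem result (R : Type u) [Ring R] (A : ℕ → Subring R) (hmono : Monotone A)
    (hcov : ∀ r : R, ∃ n, r ∈ A n) (hreg : ∀ n, ∀ a ∈ A n, ∃ x ∈ A n, a * x * a = a)
    (hA : ∀ n, PrimitiveFactorsSemiartinian (A n))
    (hCB : ∃ α : Ordinal.{u + 1}, cb (Zg R) α = ∅) : Semiartinian.{u, v} R :=
  main R A hmono hcov hreg hA hCB

end Pool.Agent.Results.MP_7a6819_al.CountableUnions
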