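import Pool.Agent.H36.KG.OnePoint

/-! # Reduction of the Cantor-Bendixson / Krull-Gabriel question to one-point Ziegler spectra -/

set_option autoImplicit false

universe u

namespace Pool.Agent.Results.MP_7a6819_al.OnePointReduction

open Pool.Agent.H36.KG

/-- First part: if `R` is a von Neumann regular ring whose Ziegler spectrum has a
Cantor-Bendixson rank but `R` is not semiartinian, then some quotient `T` of a corner `eRe` of `R`
is a simple von Neumann regular ring which is not artinian and which has exactly one
indecomposable injective right module. Second part: every such ring `T` is itself a ring whose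
Ziegler spectrum has a Cantor-Bendixson rank and which is not semiartinian. -/
theorem result :
    (∀ (R : Type u) [Ring R], (∀ a : R, ∃ x : R, a * x * a = a) →
      (∃ α : Ordinal.{u + 1}, cb (Zg R) α = ∅) → ¬ Semiartinian.{u, u} R →
      ∃ (e : R) (he : IsIdempotentElem e) (T : Type u) (_ : Ring T) (g : he.Corner →+* T),
        Function.Surjective g ∧ (∀ a : T, ∃ x : T, a * x * a = a) ∧ IsSimpleRing T ∧
        ¬ IsArtinianRing T ∧ ∃ x : Zg T, ∀ y : Zg T, y = x) ∧
    (∀ (T : Type u) [Ring T] [IsSimpleRing T], ¬ IsArtinianRing T →
      (∃ x : Zg T, ∀ y : Zg T, y = x) →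
      (∃ α : Ordinal.{u + 1}, cb (Zg T) α = ∅) ∧ ¬ Semiartinian.{u, u} T) :=
  ⟨fun R _ hreg hCB hns => reduction R hreg hCB hns, fun T _ _ hT hx => converse T hT hx⟩

end Pool.Agent.Results.MP_7a6819_al.OnePointReduction
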