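import Pool.Agent.H36.KG.Spec

/-! # Cantor-Bendixson rank and Krull-Gabriel dimension of von Neumann regular rings -/

set_option autoImplicit false

universe u v

namespace Pool.Agent.Results.MP_7a6819_al.ScatteredSmall

open Cardinal Pool.Agent.H36.KG

/-- Let `R` be a von Neumann regular ring such that either every simple right `R`-module is
generated by fewer than `2 ^ ℵ₀` elements over its endomorphism ring, or `R` is generated, as a
ring, by its centre together with fewer than `2 ^ ℵ₀` elements. If the Ziegler spectrum of `R` has
a Cantor-Bendixson rank (some Cantor-Bendixson derivative is empty) then `R` is semiartinian. -/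
theorem result (R : Type u) [Ring R] (hreg : ∀ a : R, ∃ x : R, a * x * a = a)
    (hsmall : SmallSimples R ∨ SmallOverCentre R)
    (hCB : ∃ α : Ordinal.{u + 1}, cb (Zg R) α = ∅) : Semiartinian.{u, v} R :=
  Pool.Agent.H36.KG.main R hreg (hsmall.elim id SmallOverCentre.smallSimples) hCB

end Pool.Agent.Results.MP_7a6819_al.ScatteredSmall
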